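import Pool.Agent.Helper47.DS.Defs

/-!
Row SCAT of Theorem D* (problem MP_5165fa_co): from lanes and the step to the scattered form of
the theorem on a large lift defect.
-/

open Set BIC
open scoped Matroid

namespace BICS

universe u

namespace Scat

variable {α : Type u} {L N : Matroid α} {S : Set α} {ends : α → Sym2 (ℕ × ℕ)}
  {x y w o o' s : ℕ}

/-- the union of the tiles of the cells in `X` -/
def un (S : Set α) (ends : α → Sym2 (ℕ × ℕ)) (x y w o o' s : ℕ) (X : Finset (ℕ × ℕ)) : Set α :=
  ⋃ c ∈ X, ins S ends (tl x y w o o' s c)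

lemma un_empty : un S ends x y w o o' s ∅ = ∅ := by
  simp [un]

lemma un_sub {X : Finset (ℕ × ℕ)} : un S ends x y w o o' s X ⊆ S := by
  intro e he
  simp only [un, mem_iUnion] at he
  obtain ⟨c, _, h⟩ := he
  exact h.1

lemma un_mono {X Y : Finset (ℕ × ℕ)} (h : X ⊆ Y) :
    un S ends x y w o o' s X ⊆ un S ends x y w o o' s Y := by
  intro e he
  simp only [un, mem_iUnion] at he ⊢
  obtain ⟨c, hc, h'⟩ := he
  exact ⟨c, h hc, h'⟩

lemma un_union {X Y : Finset (ℕ × ℕ)} :
    un S ends x y w o o' s (X ∪ Y) = un S ends x y w o o' s X ∪ un S ends x y w o o' s Y := by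
  ext e
  simp only [un, mem_iUnion, mem_union, Finset.mem_union]
  constructor
  · rintro ⟨c, hc | hc, h⟩
    · exact Or.inl ⟨c, hc, h⟩
    · exact Or.inr ⟨c, hc, h⟩
  · rintro (⟨c, hc, h⟩ | ⟨c, hc, h⟩)
    · exact ⟨c, Or.inl hc, h⟩
    · exact ⟨c, Or.inr hc, h⟩

lemma un_single {c : ℕ × ℕ} :
    un S ends x y w o o' s {c} = ins S ends (tl x y w o o' s c) := by
  simp [un]

/-- tiles of different cells are disjoint -/
lemma tl_disj (hs : s < w) {c c' : ℕ × ℕ} (h : c ≠ c') :
    Disjoint (tl x y w o o' s c) (tl x y w o o' s c') := by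
  rw [Set.disjoint_left]
  rintro p ⟨h1, h2, h3, h4⟩ ⟨h5, h6, h7, h8⟩
  have key : ∀ a b t z : ℕ, z + a * w + t ≤ z + b * w + t + s → z + b * w + t ≤ z + a * w + t + s →
      a = b := by
    intro a b t z g1 g2
    by_contra hab
    rcases Nat.lt_or_gt_of_ne hab with h | h
    · have : (a + 1) * w ≤ b * w := Nat.mul_le_mul_right _ h
      rw [Nat.add_mul, Nat.one_mul] at this
      omega
    · have : (b + 1) * w ≤ a * w := Nat.mul_le_mul_right _ h
      rw [Nat.add_mul, Nat.one_mul] at this
      omega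
  apply h
  exact Prod.ext (key c.1 c'.1 o x (by omega) (by omega)) (key c.2 c'.2 o' y (by omega) (by omega))

/-- additivity of the rank of `N` on the tiles -/
lemma rk_un_insert [N.Finite] (hB : Bic N S ends) (hs : s < w) {X : Finset (ℕ × ℕ)} {c : ℕ × ℕ}
    (hc : c ∉ X) : rk N (un S ends x y w o o' s (X ∪ {c})) =
      rk N (un S ends x y w o o' s X) + rk N (un S ends x y w o o' s {c}) := by
  rw [un_union]
  refine rk_skew hB (V₁ := ⋃ c' ∈ X, tl x y w o o' s c') (V₂ := tl x y w o o' s c) ?_ ?_ ?_
  · rw [Set.disjoint_left]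
    intro p hp hp'
    simp only [mem_iUnion] at hp
    obtain ⟨c', hc', h⟩ := hp
    exact Set.disjoint_left.1 (tl_disj hs (show c' ≠ c from fun h => hc (h ▸ hc'))) h hp'
  · intro e he
    simp only [un, mem_iUnion] at he
    obtain ⟨c', hc', h⟩ := he
    refine ⟨h.1, fun v hv => ?_⟩
    simp only [mem_iUnion]
    exact ⟨c', hc', h.2 v hv⟩
  · rw [un_single]

/-- a small set of cells carries the defect -/
lemma small_group [L.Finite] [N.Finite] (hB : Bic N S ends) (hs : s < w)
    {k : ℕ} {B : Finset (ℕ × ℕ)}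
    (h : rk N (un S ends x y w o o' s B) + k ≤ rk L (un S ends x y w o o' s B)) :
    ∀ j ≤ k, ∃ X ⊆ B, X.card ≤ j ∧
      rk N (un S ends x y w o o' s X) + j ≤ rk L (un S ends x y w o o' s X) := by
  classical
  set F := un S ends x y w o o' s with hF
  have h0 : ∀ (M : Matroid α) [M.Finite], rk M (∅ : Set α) = 0 := by
    intro M _
    have := rk_le_ncard M (X := (∅ : Set α)) Set.finite_empty
    simpa using this
  intro j
  induction j with
  | zero =>
    intro _
    refine ⟨∅, Finset.empty_subset _, by simp, ?_⟩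
    rw [hF, un_empty, h0, h0]
  | succ j ih =>
    intro hj
    obtain ⟨X, hXB, hXc, hXd⟩ := ih (by omega)
    by_cases h1 : rk N (F X) + (j + 1) ≤ rk L (F X)
    · exact ⟨X, hXB, by omega, h1⟩
    by_cases h2 : ∃ c ∈ B, rk N (F (X ∪ {c})) + (j + 1) ≤ rk L (F (X ∪ {c}))
    · obtain ⟨c, hc, h3⟩ := h2
      refine ⟨X ∪ {c}, Finset.union_subset hXB (Finset.singleton_subset_iff.2 hc), ?_, h3⟩
      have := Finset.card_union_le X {c}
      rw [Finset.card_singleton] at this
      omega
    · exfalso
      push Not at h2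
      have key : ∀ Y : Finset (ℕ × ℕ), Y ⊆ B → rk L (F (X ∪ Y)) ≤ rk N (F (X ∪ Y)) + j := by
        intro Y
        induction Y using Finset.induction_on with
        | empty =>
          intro _
          rw [Finset.union_empty]
          omega
        | insert c Y hcY ihY =>
          intro hY
          have h3 := ihY (fun z hz => hY (Finset.mem_insert_of_mem hz))
          have h4 := h2 c (hY (Finset.mem_insert_self _ _))
          have e1 : X ∪ insert c Y = (X ∪ Y) ∪ {c} := by
            ext z
            simp only [Finset.mem_union, Finset.mem_insert, Finset.mem_singleton]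
            tauto
          rw [e1]
          by_cases hc : c ∈ X ∪ Y
          · rw [Finset.union_eq_left.2 (Finset.singleton_subset_iff.2 hc)]
            exact h3
          · have hcX : c ∉ X := fun h => hc (Finset.mem_union_left _ h)
            have h5 := rk_un_insert (x := x) (y := y) (o := o) (o' := o') hB hs hc
            have h6 := rk_un_insert (x := x) (y := y) (o := o) (o' := o') hB hs hcX
            have h7 := rk_submod L (F (X ∪ Y)) (F (X ∪ {c}))
            have h8 : rk L (F X) ≤ rk L (F (X ∪ Y) ∩ F (X ∪ {c})) := rk_mono L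
              (subset_inter (un_mono Finset.subset_union_left) (un_mono Finset.subset_union_left))
            have h9 : rk L (F ((X ∪ Y) ∪ {c})) ≤ rk L (F (X ∪ Y) ∪ F (X ∪ {c})) := rk_mono L (by
              rw [hF, un_union]
              exact union_subset_union_right _ (un_mono Finset.subset_union_right))
            rw [← hF] at h5 h6
            omega
      have h3 := key B (Finset.Subset.refl B)
      rw [Finset.union_eq_right.2 hXB] at h3
      omega

/-- many disjoint small groups -/
lemma groups [L.Finite] [N.Finite] (hB : Bic N S ends) (hs : s < w)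
    {k G : ℕ} {I : Finset (ℕ × ℕ)}
    (h : ∀ A ⊆ I, A.card ≤ k * G → rk N (un S ends x y w o o' s (I \ A)) + k ≤
      rk L (un S ends x y w o o' s (I \ A))) :
    ∀ J ≤ G, ∃ gp : ℕ → Finset (ℕ × ℕ), (∀ j < J, gp j ⊆ I ∧ (gp j).card ≤ k ∧
      rk N (un S ends x y w o o' s (gp j)) + k ≤ rk L (un S ends x y w o o' s (gp j))) ∧
      ∀ j < J, ∀ j' < J, j ≠ j' → Disjoint (gp j) (gp j') := by
  classical
  intro J
  induction J with
  | zero => exact fun _ => ⟨fun _ => ∅, fun j hj => absurd hj (by omega),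
      fun j hj => absurd hj (by omega)⟩
  | succ J ih =>
    intro hJ
    obtain ⟨gp, h1, h2⟩ := ih (by omega)
    set A := (Finset.range J).biUnion gp with hA
    have hAI : A ⊆ I := by
      rw [hA, Finset.biUnion_subset]
      intro j hj
      exact (h1 j (Finset.mem_range.1 hj)).1
    have hAc : A.card ≤ k * G := by
      have h3 : A.card ≤ (Finset.range J).card * k :=
        Finset.card_biUnion_le_card_mul _ _ _ (fun j hj => (h1 j (Finset.mem_range.1 hj)).2.1)
      rw [Finset.card_range] at h3
      have h4 : J * k ≤ G * k := Nat.mul_le_mul_right _ (by omega)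
      rw [Nat.mul_comm k G]
      omega
    obtain ⟨X, hX, hXc, hXd⟩ := small_group hB hs (h A hAI hAc) k le_rfl
    refine ⟨Function.update gp J X, ?_, ?_⟩
    · intro j hj
      by_cases hjJ : j = J
      · subst hjJ
        rw [Function.update_self]
        exact ⟨hX.trans Finset.sdiff_subset, hXc, hXd⟩
      · rw [Function.update_of_ne hjJ]
        exact h1 j (by omega)
    · have h3 : ∀ j < J, Disjoint (gp j) X := by
        intro j hj
        rw [Finset.disjoint_left]
        intro c hc hcX
        have h4 := hX hcX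
        rw [Finset.mem_sdiff] at h4
        exact h4.2 (Finset.mem_biUnion.2 ⟨j, Finset.mem_range.2 hj, hc⟩)
      intro j hj j' hj' hne
      by_cases hjJ : j = J
      · subst hjJ
        rw [Function.update_self, Function.update_of_ne hne.symm]
        exact (h3 j' (by omega)).symm
      · by_cases hjJ' : j' = J
        · subst hjJ'
          rw [Function.update_self, Function.update_of_ne hne]
          exact h3 j (by omega)
        · rw [Function.update_of_ne hjJ, Function.update_of_ne hjJ']
          exact h2 j (by omega) j' (by omega) hne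

end Scat

open Scat in
/-- Row SCAT, from the lanes and the step. -/
theorem scat_of (k s q : ℕ) (hk : 1 ≤ k) (hq : C1Q.Q0 (2 ^ (2 * k)) ≤ q)
    (hlanes : LanesStmt.{u} k q s) (hSt : StStmt.{u}) : ScatStmt.{u} k s := by
  classical
  obtain ⟨w, o, o', hsw, ho, ho', hlan⟩ := hlanes
  have hpw : 1 ≤ 2 ^ (2 * k) := Nat.one_le_two_pow
  set P := 2 ^ (2 * k) + 2 with hP
  refine ⟨w, o, o', k * (1 + k * P), hsw, ho, ho', ?_⟩
  intro α L N _ _ S ends x y m T hSL hB hG hQ hTm hu hdef
  obtain ⟨gp, hg1, hg2⟩ := groups (L := L) (N := N) (x := x) (y := y) (o := o) (o' := o') (k := k)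
    hB hsw (G := 1 + k * P) (I := cells T) (fun A hA hAc => hdef A hA hAc) (1 + k * P) le_rfl
  have hidx : ∀ i : Fin k, ∀ r < P, 1 + (i : ℕ) * P + r < 1 + k * P := by
    intro i r hr
    have h1 : ((i : ℕ) + 1) * P ≤ k * P := Nat.mul_le_mul_right _ i.2
    rw [Nat.add_mul, Nat.one_mul] at h1
    omega
  have h00 : ∀ (M : Matroid α) [M.Finite], rk M (∅ : Set α) = 0 := by
    intro M _
    have := rk_le_ncard M (X := (∅ : Set α)) Set.finite_empty
    simpa using this
  have hne : ∀ j < 1 + k * P, (gp j).Nonempty := by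
    intro j hj
    rw [Finset.nonempty_iff_ne_empty]
    intro h
    have h1 := (hg1 j hj).2.2
    rw [h, un_empty, h00, h00] at h1
    omega
  -- indices of the groups of the lanes
  have hij : ∀ (i i' : Fin k) (r r' : ℕ), r < P → r' < P → ∀ c, c ∈ gp (1 + (i : ℕ) * P + r) →
      c ∈ gp (1 + (i' : ℕ) * P + r') → i = i' ∧ r = r' := by
    intro i i' r r' hr hr' c hc hc'
    have h1 : 1 + (i : ℕ) * P + r = 1 + (i' : ℕ) * P + r' := by
      by_contra h
      exact Finset.disjoint_left.1 (hg2 _ (hidx i r hr) _ (hidx i' r' hr') h) hc hc'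
    have h2 : (i : ℕ) = i' := by
      by_contra h
      rcases Nat.lt_or_gt_of_ne h with h3 | h3
      · have h4 : ((i : ℕ) + 1) * P ≤ i' * P := Nat.mul_le_mul_right _ h3
        rw [Nat.add_mul, Nat.one_mul] at h4
        omega
      · have h4 : ((i' : ℕ) + 1) * P ≤ i * P := Nat.mul_le_mul_right _ h3
        rw [Nat.add_mul, Nat.one_mul] at h4
        omega
    refine ⟨Fin.ext h2, ?_⟩
    rw [h2] at h1
    omega
  set g : ℕ × ℕ → Option (Fin k) := fun c =>
    if h : ∃ i : Fin k, ∃ r < P, c ∈ gp (1 + (i : ℕ) * P + r) then some h.choose else none with hg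
  have hgs : ∀ c i, g c = some i ↔ ∃ r < P, c ∈ gp (1 + (i : ℕ) * P + r) := by
    intro c i
    constructor
    · intro h
      by_cases hex : ∃ i : Fin k, ∃ r < P, c ∈ gp (1 + (i : ℕ) * P + r)
      · rw [hg] at h
        simp only [dif_pos hex] at h
        have h1 := hex.choose_spec
        rw [Option.some.inj h] at h1
        exact h1
      · rw [hg] at h
        simp only [dif_neg hex] at h
        exact absurd h (by simp)
    · rintro ⟨r, hr, hc⟩
      have hex : ∃ i : Fin k, ∃ r < P, c ∈ gp (1 + (i : ℕ) * P + r) := ⟨i, r, hr, hc⟩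
      rw [hg]
      simp only [dif_pos hex]
      obtain ⟨r', hr', hc'⟩ := hex.choose_spec
      rw [(hij _ _ _ _ hr' hr c hc' hc).1]
  obtain ⟨W, hWd, hWn, hWl⟩ := hlan hG hTm g
  -- the initial state
  set W₀ : Set (ℕ × ℕ) := ⋃ c ∈ gp 0, tl x y w o o' s c with hW₀
  have hgp0 : ∀ c ∈ gp 0, g c = none := by
    intro c hc
    rw [Option.eq_none_iff_forall_ne_some]
    intro i hi
    obtain ⟨r, hr, hc'⟩ := (hgs c i).1 hi
    exact Finset.disjoint_left.1 (hg2 0 (by omega) _ (hidx i r hr) (by omega)) hc hc'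
  have hW₀d : ∀ i, Disjoint W₀ (W i) := by
    intro i
    rw [hW₀, Set.disjoint_left]
    intro p hp hp'
    simp only [mem_iUnion] at hp
    obtain ⟨c, hc, h1⟩ := hp
    exact Set.disjoint_left.1 (hWn c ((hg1 0 (by omega)).1 hc) (hgp0 c hc) i) h1 hp'
  have hW₀r : rk L (ins S ends W₀) = rk N (ins S ends W₀) + k := by
    have h1 : un S ends x y w o o' s (gp 0) ⊆ ins S ends W₀ := by
      intro e he
      simp only [un, mem_iUnion] at he
      obtain ⟨c, hc, h⟩ := he
      refine ⟨h.1, fun v hv => ?_⟩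
      rw [hW₀]
      simp only [mem_iUnion]
      exact ⟨c, hc, h.2 v hv⟩
    have h2 := hQ _ _ h1 (fun e he => he.1)
    have h3 := hQ (ins S ends W₀) S (fun e he => he.1) Subset.rfl
    have h4 := (hg1 0 (by omega)).2.2
    omega
  -- one lane
  have step : ∀ i : Fin k, ∀ (C E : Set α) (U : Set (ℕ × ℕ)), C1Q.St L N S ends k k C E U →
      k ≤ E.ncard → E.ncard ≤ 2 * k → Disjoint U (W i) →
      ∃ C' E', C1Q.St L N S ends k k C' E' (U ∪ W i) ∧ E'.ncard = E.ncard + 1 := by
    intro i C E U hst hkE hEk hUW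
    obtain ⟨n, c, hc, hlane⟩ := hWl i
    -- the cells of the groups of the lane
    have hsur : ∀ r < P, ∀ z ∈ gp (1 + (i : ℕ) * P + r), ∃ t < n, c t = z := by
      intro r hr z hz
      have h1 : z ∈ {z | z ∈ cells T ∧ g z = some i} :=
        ⟨(hg1 _ (hidx i r hr)).1 hz, (hgs z i).2 ⟨r, hr, hz⟩⟩
      obtain ⟨t, ht, h2⟩ := hc.surjOn h1
      exact ⟨t, ht, h2⟩
    obtain ⟨n', hn'⟩ : ∃ n', n = n' + 1 := by
      obtain ⟨z, hz⟩ := hne _ (hidx i 0 (by omega))
      obtain ⟨t, ht, _⟩ := hsur 0 (by omega) z hz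
      exact ⟨n - 1, by omega⟩
    set R : Finset ℕ := (Finset.range P).filter (fun r => c 0 ∉ gp (1 + (i : ℕ) * P + r) ∧
      c n' ∉ gp (1 + (i : ℕ) * P + r)) with hR
    have hRc : 2 ^ (2 * k) ≤ R.card := by
      have h1 : ∀ z : ℕ × ℕ, ((Finset.range P).filter (fun r =>
          z ∈ gp (1 + (i : ℕ) * P + r))).card ≤ 1 := by
        intro z
        rw [Finset.card_le_one]
        intro a ha b hb
        rw [Finset.mem_filter, Finset.mem_range] at ha hb
        exact (hij i i a b ha.1 hb.1 z ha.2 hb.2).2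
      have h2 : Finset.range P ⊆ R ∪ ((Finset.range P).filter (fun r =>
          c 0 ∈ gp (1 + (i : ℕ) * P + r)) ∪ (Finset.range P).filter (fun r =>
          c n' ∈ gp (1 + (i : ℕ) * P + r))) := by
        intro r hr
        simp only [hR, Finset.mem_union, Finset.mem_filter]
        by_cases h3 : c 0 ∈ gp (1 + (i : ℕ) * P + r)
        · exact Or.inr (Or.inl ⟨hr, h3⟩)
        · by_cases h4 : c n' ∈ gp (1 + (i : ℕ) * P + r)
          · exact Or.inr (Or.inr ⟨hr, h4⟩)
          · exact Or.inl ⟨hr, h3, h4⟩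
      have h3 := (Finset.card_le_card h2).trans ((Finset.card_union_le _ _).trans
        (Nat.add_le_add_left (Finset.card_union_le _ _) _))
      have h4 := h1 (c 0)
      have h5 := h1 (c n')
      rw [Finset.card_range] at h3
      omega
    obtain ⟨f, hf1, hf2⟩ : ∃ f : ℕ → ℕ, (∀ p < 2 ^ (2 * k), f p ∈ R) ∧
        ∀ p < 2 ^ (2 * k), ∀ p' < 2 ^ (2 * k), f p = f p' → p = p' := by
      refine ⟨fun p => if h : p < R.card then (R.equivFin.symm ⟨p, h⟩ : ℕ) else 0, ?_, ?_⟩
      · intro p hp
        have h1 : p < R.card := by omega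
        simp only [dif_pos h1]
        exact (R.equivFin.symm ⟨p, h1⟩).2
      · intro p hp p' hp' h
        have h1 : p < R.card := by omega
        have h2 : p' < R.card := by omega
        simp only [dif_pos h1, dif_pos h2] at h
        have h3 := R.equivFin.symm.injective (Subtype.ext h)
        exact congrArg Fin.val h3
    have hfR : ∀ p < 2 ^ (2 * k), f p < P ∧ c 0 ∉ gp (1 + (i : ℕ) * P + f p) ∧
        c n' ∉ gp (1 + (i : ℕ) * P + f p) := by
      intro p hp
      have h1 := hf1 p hp
      rw [hR, Finset.mem_filter, Finset.mem_range] at h1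
      exact ⟨h1.1, h1.2.1, h1.2.2⟩
    refine hSt hk hB hSL hQ hst hkE hEk hUW (hlane n' hn') hq
      (fun p => (Finset.range n).filter (fun t => c t ∈ gp (1 + (i : ℕ) * P + f p))) ?_ ?_ ?_
    · intro p hp t ht
      rw [Finset.mem_filter, Finset.mem_range] at ht
      obtain ⟨_, h2, h3⟩ := hfR p hp
      rw [Finset.mem_Ico]
      constructor
      · by_contra h4
        have : t = 0 := by omega
        rw [this] at ht
        exact h2 ht.2
      · by_contra h4
        have : t = n' := by omega
        rw [this] at ht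
        exact h3 ht.2
    · intro p hp p' hp' hpp
      rw [Finset.disjoint_left]
      intro t ht ht'
      rw [Finset.mem_filter] at ht ht'
      exact hpp (hf2 p hp p' hp' (hij i i _ _ (hfR p hp).1 (hfR p' hp').1 _ ht.2 ht'.2).2)
    · intro p hp
      have e1 : (⋃ t ∈ (Finset.range n).filter (fun t => c t ∈ gp (1 + (i : ℕ) * P + f p)),
          ins S ends (tl x y w o o' s (c t))) =
          un S ends x y w o o' s (gp (1 + (i : ℕ) * P + f p)) := by
        ext e
        simp only [un, mem_iUnion, Finset.mem_filter, Finset.mem_range]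
        constructor
        · rintro ⟨t, ⟨_, ht⟩, h⟩
          exact ⟨c t, ht, h⟩
        · rintro ⟨z, hz, h⟩
          obtain ⟨t, ht, rfl⟩ := hsur _ (hfR p hp).1 z hz
          exact ⟨t, ⟨ht, hz⟩, h⟩
      rw [e1]
      exact (hg1 _ (hidx i _ (hfR p hp).1)).2.2
  have main : ∀ j ≤ k, ∃ C E, C1Q.St L N S ends k k C E
      (W₀ ∪ {p | ∃ i : Fin k, (i : ℕ) < j ∧ p ∈ W i}) ∧ E.ncard = k + j := by
    intro j
    induction j with
    | zero =>
      intro _
      obtain ⟨C, E, h1, h2⟩ := C1Q.st_init le_rfl hB hSL hQ hW₀r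
      exact ⟨C, E, h1.mono subset_union_left, h2⟩
    | succ j ih =>
      intro hj
      obtain ⟨C, E, h1, h2⟩ := ih (by omega)
      obtain ⟨C', E', h3, h4⟩ := step ⟨j, by omega⟩ C E _ h1 (by omega) (by omega) (by
        rw [Set.disjoint_left]
        rintro p (hp | ⟨i, hi, hp⟩) hp'
        · exact Set.disjoint_left.1 (hW₀d _) hp hp'
        · exact Set.disjoint_left.1 (hWd i ⟨j, by omega⟩ (fun h => by
            rw [h] at hi
            simp only at hi
            omega)) hp hp')
      refine ⟨C', E', h3.mono ?_, by omega⟩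
      rintro p ((hp | ⟨i, hi, hp⟩) | hp)
      · exact Or.inl hp
      · exact Or.inr ⟨i, by omega, hp⟩
      · exact Or.inr ⟨⟨j, by omega⟩, by simp only; omega, hp⟩
  obtain ⟨C, E, h1, h2⟩ := main k le_rfl
  have hCE : C ∪ E ⊆ S := union_subset (fun e he => (h1.subC he).1) (fun e he => (h1.subE he).1)
  refine C1Q.unif_end (C := C) (E := E) (fun e he => hSL (h1.subE he).1) h1.disj (by omega)
    h1.ind ?_
  have h3 := hQ (C ∪ E) S hCE Subset.rfl
  have h4 := h1.hi
  omega

end BICS
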